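import Pool.Agent.Lib.MP_bd80ac_an.Final

/-! Exact asymptotics at infinity of the fundamental solution of the fractional Kolmogorov
equation, uniformly in all directions. -/

set_option autoImplicit false

namespace Pool.Agent.Results.MP_bd80ac_an.Asymptotics

open MeasureTheory Set Filter Topology
open scoped Real RealInnerProductSpace

/-- `Φ_t (ψ, ξ) = ∫_0^t |ξ + τ ψ| ^ (2 s) dτ`. -/
noncomputable def Phi {d : ℕ} (s t : ℝ) (ψ ξ : EuclideanSpace ℝ (Fin d)) : ℝ :=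
  ∫ τ in (0 : ℝ)..t, ‖ξ + τ • ψ‖ ^ (2 * s)

/-- The fundamental solution `K_s (t, x, v)`, the inverse Fourier transform of `exp (-Φ_t)`. -/
noncomputable def K {d : ℕ} (s t : ℝ) (x v : EuclideanSpace ℝ (Fin d)) : ℂ :=
  ((2 * π : ℂ) ^ (2 * d))⁻¹ *
    ∫ ζ : EuclideanSpace ℝ (Fin d) × EuclideanSpace ℝ (Fin d),
      Complex.exp (Complex.I * ((⟪x, ζ.1⟫ + ⟪v, ζ.2⟫ : ℝ) : ℂ)) *
        ((Real.exp (-Phi s t ζ.1 ζ.2) : ℝ) : ℂ)

/-- The isotropic `2 s`-stable density on `ℝ^d` with symbol `exp (-a |η| ^ (2 s))`. -/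
noncomputable def q {d : ℕ} (s a : ℝ) (y : EuclideanSpace ℝ (Fin d)) : ℝ :=
  ((2 * π) ^ d)⁻¹ *
    ∫ η : EuclideanSpace ℝ (Fin d), Real.cos ⟪y, η⟫ * Real.exp (-(a * ‖η‖ ^ (2 * s)))

/-- `m (τ) = ∫_0^t |σ - τ| ^ (2 s) dσ`. -/
noncomputable def m (s t τ : ℝ) : ℝ := ∫ σ in (0 : ℝ)..t, |σ - τ| ^ (2 * s)

/-- The constant of the fractional Laplacian `(-Δ) ^ s` on `ℝ^d`. -/
noncomputable def c (d : ℕ) (s : ℝ) : ℝ :=
  s * 4 ^ s * Real.Gamma (d / 2 + s) / (π ^ ((d : ℝ) / 2) * Real.Gamma (1 - s))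

/-- The uniform equivalent of `K`. -/
noncomputable def F {d : ℕ} (s t : ℝ) (x v : EuclideanSpace ℝ (Fin d)) : ℝ :=
  1 / 2 * ∫ σ in (0 : ℝ)..t, ∫ τ in (0 : ℝ)..t, |τ - σ| ^ (d + 4 * s) *
    (q s (m s t σ) (x - σ • v) / m s t σ) * (q s (m s t τ) (x - τ • v) / m s t τ)

/-- The limit in a direction outside the cone `x = τ v`, `0 ≤ τ ≤ t`. -/
noncomputable def H {d : ℕ} (s t : ℝ) (x v : EuclideanSpace ℝ (Fin d)) : ℝ :=
  c d s ^ 2 / 2 * ∫ σ in (0 : ℝ)..t, ∫ τ in (0 : ℝ)..t, |τ - σ| ^ (d + 4 * s) *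
    ‖x - σ • v‖ ^ (-(d + 2 * s)) * ‖x - τ • v‖ ^ (-(d + 2 * s))

/-- The limit in the direction `(τ v, v)` of the cone. -/
noncomputable def G {d : ℕ} (s t τ : ℝ) (v : EuclideanSpace ℝ (Fin d)) : ℝ :=
  (if 0 < τ ∧ τ < t then 1 else 1 / 2) * c d s * ‖v‖ ^ (-(d + 2 * s + 1)) *
    m s t τ ^ (-((d - 1) / (2 * s))) * Real.Gamma ((d - 1) / (2 * s) + 1) /
      ((4 * π) ^ (((d : ℝ) - 1) / 2) * Real.Gamma ((d + 1) / 2))

theorem c_eq (d : ℕ) (s : ℝ) : c d s = Lib.MP_bd80ac_an.cc d (2 * s) := by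
  rw [c, Lib.MP_bd80ac_an.cc, show ((d : ℝ) + 2 * s) / 2 = d / 2 + s by ring,
    show 2 * s / 2 = s by ring, Real.rpow_sub_one two_ne_zero, Real.rpow_mul zero_le_two,
    Real.rpow_two]
  congr 2
  norm_num
  ring

theorem result (d : ℕ) (hd : 1 ≤ d) (s t : ℝ) (hs0 : 0 < s) (hs1 : s < 1) (ht : 0 < t) :
    ((∀ x v : EuclideanSpace ℝ (Fin d), 0 < F s t x v) ∧
      Tendsto (fun z : EuclideanSpace ℝ (Fin d) × EuclideanSpace ℝ (Fin d) =>
        K s t z.1 z.2 / (F s t z.1 z.2 : ℂ)) (cocompact _) (𝓝 1)) ∧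
    (∀ x v : EuclideanSpace ℝ (Fin d), (∀ τ ∈ Icc (0 : ℝ) t, x ≠ τ • v) → 0 < H s t x v ∧
      Tendsto (fun R : ℝ => ((R ^ (2 * d + 4 * s) : ℝ) : ℂ) * K s t (R • x) (R • v)) atTop
        (𝓝 (H s t x v : ℂ))) ∧
    (∀ v : EuclideanSpace ℝ (Fin d), v ≠ 0 → ∀ τ ∈ Icc (0 : ℝ) t, 0 < G s t τ v ∧
      Tendsto (fun R : ℝ => ((R ^ (d + 2 * s + 1) : ℝ) : ℂ) * K s t (R • τ • v) (R • v)) atTop
        (𝓝 (G s t τ v : ℂ))) := by
  have : Nonempty (Fin d) := ⟨⟨0, hd⟩⟩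
  have h0 : 0 < 2 * s := by linarith
  have h2 : 2 * s < 2 := by linarith
  have hdm : Lib.MP_bd80ac_an.dm (EuclideanSpace ℝ (Fin d)) = d := by
    simp [Lib.MP_bd80ac_an.dm]
  have hK : ∀ x v : EuclideanSpace ℝ (Fin d),
      K s t x v = (Lib.MP_bd80ac_an.kin (2 * s) t (x, v) : ℝ) := by
    intro x v
    have h := Lib.MP_bd80ac_an.cexp_int h0 ht x v
    rw [K, Lib.MP_bd80ac_an.kin, Complex.ofReal_mul, ← h, finrank_euclideanSpace_fin]
    push_cast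
    rfl
  have hq : ∀ (a : ℝ) (y : EuclideanSpace ℝ (Fin d)),
      q s a y = Lib.MP_bd80ac_an.stab (2 * s) a y := by
    intro a y
    rw [q, Lib.MP_bd80ac_an.stab, Lib.MP_bd80ac_an.FR, finrank_euclideanSpace_fin]
  have hF : ∀ x v : EuclideanSpace ℝ (Fin d),
      F s t x v = 1 / 2 * (Lib.MP_bd80ac_an.F2 (2 * s) t (x, v)).toReal := by
    intro x v
    have h := Lib.MP_bd80ac_an.lint2_toReal ht _ (Lib.MP_bd80ac_an.measurable_Fint h0 ht (x, v))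
      (fun y => mul_nonneg (mul_nonneg (by positivity) (Lib.MP_bd80ac_an.Q_nonneg h0 h2 ht _ _))
        (Lib.MP_bd80ac_an.Q_nonneg h0 h2 ht _ _)) (Lib.MP_bd80ac_an.F2_ne_top h0 h2 ht (x, v))
    rw [Lib.MP_bd80ac_an.F2, ← h, hdm, show 2 * (2 * s) = 4 * s by ring]
    simp only [F, hq]
    rfl
  have hFpos : ∀ x v : EuclideanSpace ℝ (Fin d), 0 < F s t x v := fun x v => by
    rw [hF]
    exact mul_pos (by norm_num) (ENNReal.toReal_pos (Lib.MP_bd80ac_an.F2_ne_zero h0 h2 ht _)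
      (Lib.MP_bd80ac_an.F2_ne_top h0 h2 ht _))
  refine ⟨⟨hFpos, ?_⟩, fun x v hoff => ?_, fun v hv τ hτ => ?_⟩
  · have h := (Complex.continuous_ofReal.tendsto 1).comp
      (Lib.MP_bd80ac_an.unif (E := EuclideanSpace ℝ (Fin d)) h0 h2 ht)
    refine h.congr fun z => ?_
    simp only [Function.comp]
    rw [hK, hF, ← Complex.ofReal_div, ENNReal.toReal_mul, Lib.MP_bd80ac_an.pp,
      ENNReal.toReal_ofReal ((Lib.MP_bd80ac_an.kin_dec h0 h2 ht).1 _), ENNReal.toReal_ofNat]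
    congr 1
    ring
  · have hoff' : ∀ τ ∈ Icc (0 : ℝ) t, Lib.MP_bd80ac_an.Tt τ (x, v) ≠ 0 :=
      fun τ hτ => sub_ne_zero.mpr (hoff τ hτ)
    have hH : H s t x v = (Lib.MP_bd80ac_an.Hh (2 * s) t (x, v)).toReal / 2 := by
      have hm : Measurable fun y : ℝ × ℝ => Lib.MP_bd80ac_an.cc d (2 * s) ^ 2 *
          |y.2 - y.1| ^ (d + 2 * (2 * s)) * ‖x - y.1 • v‖ ^ (-(d + 2 * s)) *
          ‖x - y.2 • v‖ ^ (-(d + 2 * s)) := by fun_prop
      have hfin := Lib.MP_bd80ac_an.Hh_ne_top h0 ht hoff'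
      rw [Lib.MP_bd80ac_an.Hh, hdm] at hfin ⊢
      have h := Lib.MP_bd80ac_an.lint2_toReal ht _ hm (fun y => by positivity) hfin
      simp only [Lib.MP_bd80ac_an.Tt]
      rw [← h, H, c_eq, show 2 * (2 * s) = 4 * s by ring]
      simp only [mul_assoc, intervalIntegral.integral_const_mul]
      ring
    refine ⟨?_, ?_⟩
    · rw [hH]
      exact half_pos (ENNReal.toReal_pos (Lib.MP_bd80ac_an.Hh_ne_zero h0 h2 ht hoff')
        (Lib.MP_bd80ac_an.Hh_ne_top h0 ht hoff'))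
    · have h := (Complex.continuous_ofReal.tendsto _).comp
        (Lib.MP_bd80ac_an.ray_off h0 h2 ht (x, v) hoff')
      rw [← hH, hdm] at h
      refine h.congr fun R => ?_
      simp only [Function.comp]
      rw [hK, Complex.ofReal_mul, show 2 * ((d : ℝ) + 2 * s) = 2 * d + 4 * s by ring]
      rfl
  · have hr := Lib.MP_bd80ac_an.ray_on h0 h2 ht hτ v hv
    have hk := Lib.MP_bd80ac_an.kap_pos (E := EuclideanSpace ℝ (Fin d)) h0
    have hc := Lib.MP_bd80ac_an.cc_pos' (E := EuclideanSpace ℝ (Fin d)) h0 h2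
    rw [hdm] at hr hk hc
    have hG : G s t τ v = (if 0 < τ ∧ τ < t then 1 else 1 / 2) *
        (Lib.MP_bd80ac_an.cc d (2 * s) * ‖v‖ ^ (-((d : ℝ) + 2 * s + 1)) *
          (Lib.MP_bd80ac_an.mm (2 * s) t τ ^ (-(((d : ℝ) - 1) / (2 * s))) *
            Lib.MP_bd80ac_an.kap d (2 * s))) := by
      rw [G, c_eq, Lib.MP_bd80ac_an.kap, show m s t τ = Lib.MP_bd80ac_an.mm (2 * s) t τ from rfl]
      ring
    refine ⟨?_, ?_⟩
    · have hθ : (0 : ℝ) < if 0 < τ ∧ τ < t then 1 else 1 / 2 := by split_ifs <;> norm_num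
      have hm := Lib.MP_bd80ac_an.mm_pos h0 ht τ
      have hv' : 0 < ‖v‖ := norm_pos_iff.mpr hv
      rw [hG]
      positivity
    · have h := (Complex.continuous_ofReal.tendsto _).comp hr
      rw [← hG] at h
      refine h.congr fun R => ?_
      simp only [Function.comp]
      rw [hK, Complex.ofReal_mul]
      rfl

end Pool.Agent.Results.MP_bd80ac_an.Asymptotics
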